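import Pool.Agent.W998.KG.Stm4

set_option autoImplicit false

namespace Pool.Agent.W153.KG.MFA

open Pool.Agent.Results.MP_633d19_co.SmallDegree
open Pool.Agent.Results.MP_633d19_co.SmallDegree.MGraph
open Pool.Agent.W998.KG

open Classical in
theorem core (H : SimpleGraph (Fin 11))
    (h3 : ∀ i j k, H.Adj i j → H.Adj j k → H.Adj k i → False)
    (h4 : ∀ i j k l, i ≠ k → j ≠ l → H.Adj i j → H.Adj j k → H.Adj k l → H.Adj l i → False)
    (hd : ∀ i, 3 ≤ H.degree i) : False := by
  have hle : ∀ i, H.degree i = 3 := by
    intro i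
    refine le_antisymm ?_ (hd i)
    let N := H.neighborFinset i
    let M : Fin 11 → Finset (Fin 11) := fun j => (H.neighborFinset j).erase i
    have hN : ∀ j, j ∈ N ↔ H.Adj i j := fun j => H.mem_neighborFinset i j
    have hM : ∀ j x, x ∈ M j ↔ x ≠ i ∧ H.Adj j x := by
      intro j x
      show x ∈ (H.neighborFinset j).erase i ↔ _
      rw [Finset.mem_erase, H.mem_neighborFinset]
    have hdisj : ∀ j ∈ N, ∀ l ∈ N, j ≠ l → Disjoint (M j) (M l) := by
      intro j hj l hl hjl
      rw [Finset.disjoint_left]
      intro x hx hx'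
      rw [hM] at hx hx'
      rw [hN] at hj hl
      exact h4 i j x l hx.1.symm hjl hj hx.2 hx'.2.symm hl.symm
    have hc : (N.biUnion M).card = ∑ j ∈ N, (M j).card := Finset.card_biUnion hdisj
    have hge : N.card * 2 ≤ (N.biUnion M).card := by
      rw [hc]
      have : ∀ j ∈ N, 2 ≤ (M j).card := by
        intro j hj
        have hi : i ∈ H.neighborFinset j := by
          rw [H.mem_neighborFinset]
          exact ((hN j).1 hj).symm
        have h1 : (M j).card = (H.neighborFinset j).card - 1 := Finset.card_erase_of_mem hi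
        have h2 : (H.neighborFinset j).card = H.degree j := H.card_neighborFinset_eq_degree j
        have h5 := hd j
        omega
      have := Finset.card_nsmul_le_sum N (fun j => (M j).card) 2 this
      simpa [smul_eq_mul] using this
    have hdis2 : Disjoint N (N.biUnion M) := by
      rw [Finset.disjoint_left]
      intro x hx hx'
      rw [Finset.mem_biUnion] at hx'
      obtain ⟨j, hj, hxj⟩ := hx'
      rw [hM] at hxj
      rw [hN] at hx hj
      exact h3 i j x hj hxj.2 hx.symm
    have hi : i ∉ N ∪ N.biUnion M := by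
      rw [Finset.mem_union, Finset.mem_biUnion]
      rintro (h | ⟨j, hj, h⟩)
      · exact H.irrefl ((hN i).1 h)
      · exact ((hM j i).1 h).1 rfl
    have hcard : (insert i (N ∪ N.biUnion M)).card ≤ 11 := by
      have := Finset.card_le_univ (insert i (N ∪ N.biUnion M))
      simpa using this
    rw [Finset.card_insert_of_notMem hi, Finset.card_union_of_disjoint hdis2] at hcard
    have hNd : N.card = H.degree i := H.card_neighborFinset_eq_degree i
    omega
  have hsum := H.sum_degrees_eq_twice_card_edges
  rw [Finset.sum_congr rfl (fun i _ => hle i)] at hsum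
  simp at hsum
  omega

theorem main : PartMFA := by
  classical
  intro V E G y hinj hA hg
  have hne : ∀ (e : E) (u v : V), G.ends e = s(u, v) → u ≠ v := by
    intro e u v h huv
    apply G.loopless e
    rw [h, huv]
    exact rfl
  let r : Fin 11 → Fin 11 → Prop := fun i j => ∃ e, G.ends e = s(y i, y j)
  have hadj : ∀ i j, (SimpleGraph.fromRel r).Adj i j → ∃ e, G.ends e = s(y i, y j) := by
    intro i j h
    rw [SimpleGraph.fromRel_adj] at h
    rcases h.2 with h | ⟨e, h⟩
    · exact h
    · exact ⟨e, by rw [h, Sym2.eq_swap]⟩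
  have hyn : ∀ i j : Fin 11, i ≠ j → y i ≠ y j := by
    intro i j hij h
    exact hij (Fin.ext (hinj i (by omega) j (by omega) h))
  refine core (SimpleGraph.fromRel r) ?_ ?_ ?_
  · intro i j k h1 h2 h3
    have n1 := hyn i j h1.ne
    have n2 := hyn j k h2.ne
    have n3 := hyn k i h3.ne
    obtain ⟨e1, e1h⟩ := hadj i j h1
    obtain ⟨e2, e2h⟩ := hadj j k h2
    obtain ⟨e3, e3h⟩ := hadj k i h3
    have := hg 3 le_rfl ⟨fun n => if n = 0 then y i else if n = 1 then y j else y k, ?_, ?_⟩
    · omega
    · intro a ha b hb hab
      interval_cases a <;> interval_cases b <;> simp at hab ⊢ <;>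
        first
          | exact n1 hab | exact n2 hab | exact n3 hab
          | exact n1 hab.symm | exact n2 hab.symm | exact n3 hab.symm
    · intro a ha
      interval_cases a
      · exact ⟨e1, by simpa using e1h⟩
      · exact ⟨e2, by simpa using e2h⟩
      · exact ⟨e3, by simpa using e3h⟩
  · intro i j k l hik hjl h1 h2 h3 h4
    have n1 := hyn i j h1.ne
    have n2 := hyn j k h2.ne
    have n3 := hyn k l h3.ne
    have n4 := hyn l i h4.ne
    have n5 := hyn i k hik
    have n6 := hyn j l hjl
    obtain ⟨e1, e1h⟩ := hadj i j h1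
    obtain ⟨e2, e2h⟩ := hadj j k h2
    obtain ⟨e3, e3h⟩ := hadj k l h3
    obtain ⟨e4, e4h⟩ := hadj l i h4
    have := hg 4 (by omega)
      ⟨fun n => if n = 0 then y i else if n = 1 then y j else if n = 2 then y k else y l, ?_, ?_⟩
    · omega
    · intro a ha b hb hab
      interval_cases a <;> interval_cases b <;> simp at hab ⊢ <;>
        first
          | exact n1 hab | exact n2 hab | exact n3 hab | exact n4 hab | exact n5 hab
          | exact n6 hab | exact n1 hab.symm | exact n2 hab.symm | exact n3 hab.symm
          | exact n4 hab.symm | exact n5 hab.symm | exact n6 hab.symm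
    · intro a ha
      interval_cases a
      · exact ⟨e1, by simpa using e1h⟩
      · exact ⟨e2, by simpa using e2h⟩
      · exact ⟨e3, by simpa using e3h⟩
      · exact ⟨e4, by simpa using e4h⟩
  · intro i
    obtain ⟨A, hA1, hA2⟩ := hA i (by omega)
    refine hA2.trans ?_
    rw [← SimpleGraph.card_neighborFinset_eq_degree]
    refine Finset.card_le_card_of_injOn (fun j => (⟨j % 11, Nat.mod_lt _ (by omega)⟩ : Fin 11)) ?_ ?_
    · intro j hj
      obtain ⟨hj1, e, he⟩ := hA1 j hj
      have hjm : j % 11 = j := Nat.mod_eq_of_lt (by omega)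
      rw [Finset.mem_coe, SimpleGraph.mem_neighborFinset, SimpleGraph.fromRel_adj]
      refine ⟨?_, Or.inl ⟨e, ?_⟩⟩
      · intro h
        have h' : (i : ℕ) = j := by
          have := congrArg Fin.val h
          simpa [hjm] using this
        exact hne e _ _ he (by rw [h'])
      · show G.ends e = s(y i, y (j % 11))
        rw [hjm, he]
    · intro j hj j' hj' h
      have h1 := (hA1 j hj).1
      have h2 := (hA1 j' hj').1
      have := congrArg Fin.val h
      simp only at this
      omega

end Pool.Agent.W153.KG.MFA
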